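import Pool.Agent.Lib.MP_a966df_ag.Fin
import Pool.Agent.Lib.MP_a966df_ag.Descent

namespace Pool.Agent.Results.MP_a966df_ag.AnSections

open Pool.Agent.Lib.MP_a966df_ag IsLocalRing RingTheory.Sequence

universe u

theorem result (S : Type u) [CommRing S] [IsRegularLocalRing S] (hS : ringKrullDim S = 5)
    (x y z t u : S) (hm : maximalIdeal S = Ideal.span {x, y, z, t, u}) (n : ℕ) (hn : 0 < n) (f : S)
    (hf : IsRegular S [x * y + z * t + u ^ n, f]) (R : Type u) [CommRing R] [IsNoetherianRing R]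
    [IsLocalRing R] (hR : ringKrullDim R = 3)
    (e : Nonempty (AdicCompletion (maximalIdeal R) R ≃+* S ⧸ Ideal.span {x * y + z * t + u ^ n, f}))
    (N : Type u) [AddCommGroup N] [Module R N] [Module.Finite R N] (h1 : Module.IsReflexive R N)
    (h2 : LocFree R N) (h3 : ClassZero R N) (h4 : IsMCM R (N →ₗ[R] N)) : Module.Free R N := by
  obtain ⟨e⟩ := e
  obtain ⟨k, rfl⟩ := Nat.exists_eq_succ_of_ne_zero hn.ne'
  generalize hg : x * y + z * t + u ^ k.succ = g at hf e
  let φ := e.symm.toRingHom.comp (Ideal.Quotient.factor (S := Ideal.span {g})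
    (T := Ideal.span {g, f}) (Ideal.span_mono (by simp)))
  let := φ.toAlgebra
  have hs : Function.Surjective
      (algebraMap (S ⧸ Ideal.span {g}) (AdicCompletion (maximalIdeal R) R)) :=
    e.symm.surjective.comp (Ideal.Quotient.factor_surjective _)
  have hk : ∀ a, algebraMap (S ⧸ Ideal.span {g}) (AdicCompletion (maximalIdeal R) R) a = 0 ↔
      ∃ b, algebraMap S (S ⧸ Ideal.span {g}) f • b = a := fun a => by
    obtain ⟨a, rfl⟩ := Ideal.Quotient.mk_surjective a
    refine (map_eq_zero_iff e.symm e.symm.injective).trans (Ideal.Quotient.eq_zero_iff_mem.trans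
      (Ideal.mem_span_pair.trans ⟨?_, ?_⟩))
    · rintro ⟨c, d, rfl⟩
      exact ⟨Ideal.Quotient.mk _ d, by simp [mul_comm]⟩
    · rintro ⟨b, hb⟩
      obtain ⟨b, rfl⟩ := Ideal.Quotient.mk_surjective b
      obtain ⟨c, hc⟩ := Ideal.mem_span_singleton'.mp (Ideal.Quotient.eq.mp hb.symm)
      exact ⟨c, b, by rw [hc]; simp [mul_comm]⟩
  have := φ.domain_nontrivial
  have := IsLocalRing.of_surjective' (Ideal.Quotient.mk (Ideal.span {g})) Ideal.Quotient.mk_surjective
  have : SMulCommClass R (S ⧸ Ideal.span {g}) (AdicCompletion (maximalIdeal R) R) :=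
    ⟨fun a b c => by simp only [Algebra.smul_def, mul_left_comm]⟩
  have hk' : ∀ a, algebraMap S (S ⧸ Ideal.span {g}) a = 0 ↔ ∃ b, g • b = a := fun a =>
    Ideal.Quotient.eq_zero_iff_mem.trans (Ideal.mem_span_singleton.trans
      (exists_congr fun _ => eq_comm))
  have hf' : IsSMulRegular (S ⧸ Ideal.span {g}) (algebraMap S (S ⧸ Ideal.span {g}) f) :=
    .of_right_eq_zero_of_smul fun a ha => by
      obtain ⟨a, rfl⟩ := Ideal.Quotient.mk_surjective a
      obtain ⟨b, hb⟩ := (hk' (f * a)).mp ha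
      exact (hk' a).mpr ((rg_of hf.1).2 a b hb.symm)
  have := an_good (x := x) (y := y) (z := z) (t := t) (u := u) (k := k) (g := g)
    (by simp [hm, Ideal.span_insert]) hS.ge (by rw [← hg, Nat.succ_eq_add_one]; ring) Ideal.Quotient.mk_surjective hk' hf'
    (Algebra.linearMap _ (AdicCompletion (maximalIdeal R) R)) hs hk
  exact descent AdicCompletion.maximalIdeal_eq_map hf' hs hk this.1
    (fun X _ _ a b _ => this.2 X a b) hR h2 h3 h4

end Pool.Agent.Results.MP_a966df_ag.AnSections
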