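import Pool.Agent.Lib.MP_a966df_ag.DxMain

namespace Pool.Agent.Results.MP_a966df_ag.Counterexample

open Pool.Agent.Lib.MP_a966df_ag IsLocalRing RingTheory.Sequence

universe u

theorem result (k : Type u) [Field k] :
    ∃ (S : Type u) (_ : CommRing S) (_ : IsRegularLocalRing S) (f g : S)
      (R : Type u) (_ : CommRing R) (_ : IsNoetherianRing R) (_ : IsLocalRing R) (_ : Algebra k R)
      (N : Type u) (_ : AddCommGroup N) (_ : Module R N) (_ : Module.Finite R N),
      IsRegular S [f, g] ∧
      Nonempty (AdicCompletion (maximalIdeal R) R ≃+* S ⧸ Ideal.span {f, g}) ∧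
      ringKrullDim R = 3 ∧ IsDomain R ∧ Algebra.EssFiniteType k R ∧
      Module.IsReflexive R N ∧ LocFree R N ∧ ClassZero R N ∧
      IsMCM R (N →ₗ[R] N) ∧ ¬ Module.Free R N :=
  dx_final k

end Pool.Agent.Results.MP_a966df_ag.Counterexample
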