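import Pool.Agent.Lib.MP_a966df_ag.FTFin

namespace Pool.Agent.Results.MP_a966df_ag.FiniteType

open Pool.Agent.Lib.MP_a966df_ag IsLocalRing RingTheory.Sequence

universe u

/-- Indecomposable modules. -/
def Indec (Q : Type u) [CommRing Q] (M : Type u) [AddCommGroup M] [Module Q M] : Prop :=
  Nontrivial M ∧ ∀ A B : Submodule Q M, IsCompl A B → A = ⊥ ∨ B = ⊥

/-- Finite Cohen-Macaulay type. -/
def FiniteCMType (Q : Type u) [CommRing Q] [IsLocalRing Q] : Prop :=
  ∃ (n : ℕ) (X : Fin n → ModuleCat.{u} Q), ∀ (M : Type u) [AddCommGroup M] [Module Q M]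
    [Module.Finite Q M], IsMCM Q M → Indec Q M → ∃ i, Nonempty (M ≃ₗ[Q] X i)

theorem result (S : Type u) [CommRing S] [IsRegularLocalRing S] [IsAdicComplete (maximalIdeal S) S]
    (hS : ringKrullDim S = 5) (g f : S) (hf : IsRegular S [g, f])
    [IsLocalRing (S ⧸ Ideal.span {g})] (hQ : FiniteCMType (S ⧸ Ideal.span {g}))
    (R : Type u) [CommRing R] [IsNoetherianRing R] [IsLocalRing R] (hR : ringKrullDim R = 3)
    (e : Nonempty (AdicCompletion (maximalIdeal R) R ≃+* S ⧸ Ideal.span {g, f}))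
    (N : Type u) [AddCommGroup N] [Module R N] [Module.Finite R N] (h1 : Module.IsReflexive R N)
    (h2 : LocFree R N) (h3 : ClassZero R N) (h4 : IsMCM R (N →ₗ[R] N)) : Module.Free R N := by
  obtain ⟨e⟩ := e
  obtain ⟨n, V, hV⟩ := hQ
  let φ := e.symm.toRingHom.comp (Ideal.Quotient.factor (S := Ideal.span {g})
    (T := Ideal.span {g, f}) (Ideal.span_mono (by simp)))
  let := φ.toAlgebra
  have hs : Function.Surjective
      (algebraMap (S ⧸ Ideal.span {g}) (AdicCompletion (maximalIdeal R) R)) :=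
    e.symm.surjective.comp (Ideal.Quotient.factor_surjective _)
  have hk : ∀ a, algebraMap (S ⧸ Ideal.span {g}) (AdicCompletion (maximalIdeal R) R) a = 0 ↔
      ∃ b, algebraMap S (S ⧸ Ideal.span {g}) f • b = a := fun a => by
    obtain ⟨a, rfl⟩ := Ideal.Quotient.mk_surjective a
    refine (map_eq_zero_iff e.symm e.symm.injective).trans (Ideal.Quotient.eq_zero_iff_mem.trans
      (Ideal.mem_span_pair.trans ⟨?_, ?_⟩))
    · rintro ⟨c, d, rfl⟩
      exact ⟨Ideal.Quotient.mk _ d, by simp [mul_comm]⟩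
    · rintro ⟨b, hb⟩
      obtain ⟨b, rfl⟩ := Ideal.Quotient.mk_surjective b
      obtain ⟨c, hc⟩ := Ideal.mem_span_singleton'.mp (Ideal.Quotient.eq.mp hb.symm)
      exact ⟨c, b, by rw [hc]; simp [mul_comm]⟩
  have : SMulCommClass R (S ⧸ Ideal.span {g}) (AdicCompletion (maximalIdeal R) R) :=
    ⟨fun a b c => by simp only [Algebra.smul_def, mul_left_comm]⟩
  have hk' : ∀ a, algebraMap S (S ⧸ Ideal.span {g}) a = 0 ↔ ∃ b, g • b = a := fun a =>
    Ideal.Quotient.eq_zero_iff_mem.trans (Ideal.mem_span_singleton.trans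
      (exists_congr fun _ => eq_comm))
  have hf' : IsSMulRegular (S ⧸ Ideal.span {g}) (algebraMap S (S ⧸ Ideal.span {g}) f) :=
    .of_right_eq_zero_of_smul fun a ha => by
      obtain ⟨a, rfl⟩ := Ideal.Quotient.mk_surjective a
      obtain ⟨b, hb⟩ := (hk' (f * a)).mp ha
      exact (hk' a).mpr ((rg_of hf.1).2 a b hb.symm)
  have := ft_final hS (rg_of hf.1) V (fun M _ _ _ a b c => hV M a ⟨b, c⟩) hk'
    (Algebra.linearMap _ (AdicCompletion (maximalIdeal R) R)) hs hk
  exact descent AdicCompletion.maximalIdeal_eq_map hf' hs hk this.1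
    (fun X _ _ a b c => this.2 X ⟨a, b, c⟩) hR h2 h3 h4

end Pool.Agent.Results.MP_a966df_ag.FiniteType
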