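import Pool.Agent.Lib.MP_a966df_ag.Tower
import Pool.Agent.Lib.MP_a966df_ag.Descent
import Pool.Agent.Lib.MP_a966df_ag.Reg

namespace Pool.Agent.Results.MP_a966df_ag.InseparableTowers

open Pool.Agent.Lib.MP_a966df_ag IsLocalRing Polynomial

universe u

lemma nice {p : ℕ} (hp : p.Prime) {A : Type u} [CommRing A] (h0 : (p : A) = 0) {Q : Type u}
    [CommRing Q] [Algebra A Q] (h : InsepTower A p Q) : Nice p A Q := by
  induction h with
  | base =>
    exact Nice.step hp h0 0 0 (by simp) 0 0 (by simp) (Subsingleton.elim _ _) LinearMap.id (by simp)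
  | step B _ e a ih =>
    obtain ⟨n, hn⟩ := Nat.exists_eq_succ_of_ne_zero (pow_pos hp.pos e).ne'
    have hm : (X ^ p ^ e - C a).Monic := monic_X_pow_sub_C a (pow_pos hp.pos e).ne'
    have := hm.finite_adjoinRoot
    have := hm.free_adjoinRoot
    refine ih.trans (Nice.step hp (by rw [← map_natCast (algebraMap A B), h0, map_zero]) e n hn
      (AdjoinRoot.root _) a ?_ AdjoinRoot.adjoinRoot_eq_top
      (lcoeff B n ∘ₗ AdjoinRoot.modByMonicHom hm) fun i hi => ?_)
    · have := AdjoinRoot.eval₂_root (X ^ p ^ e - C a)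
      rw [eval₂_sub, eval₂_X_pow, eval₂_C, sub_eq_zero] at this
      exact (congrArg _ hn.symm).trans this
    · cases subsingleton_or_nontrivial B with
      | inl _ => exact Subsingleton.elim _ _
      | inr _ =>
      rw [← AdjoinRoot.mk_X, ← map_pow, LinearMap.comp_apply, AdjoinRoot.modByMonicHom_mk,
        (modByMonic_eq_self_iff hm).mpr (by
          rw [degree_X_pow, degree_X_pow_sub_C (pow_pos hp.pos e), hn]
          exact_mod_cast Nat.lt_succ_of_le hi), lcoeff_apply, coeff_X_pow]
      simp [eq_comm]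

theorem result (p : ℕ) (hp : p.Prime) (A : Type u) [CommRing A] [IsRegularLocalRing A] [CharP A p]
    (hA : ringKrullDim A = 4) (Q : Type u) [CommRing Q] [Algebra A Q] (hQ : InsepTower A p Q)
    (f : Q) (hf : f ∈ nonZeroDivisors Q) (R : Type u) [CommRing R] [IsNoetherianRing R]
    [IsLocalRing R] (hR : ringKrullDim R = 3)
    (e : Nonempty (AdicCompletion (maximalIdeal R) R ≃+* Q ⧸ Ideal.span {f}))
    (N : Type u) [AddCommGroup N] [Module R N] [Module.Finite R N] (h1 : Module.IsReflexive R N)
    (h2 : LocFree R N) (h3 : ClassZero R N) (h4 : IsMCM R (N →ₗ[R] N)) : Module.Free R N := by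
  obtain ⟨e⟩ := e
  have h0 := CharP.cast_eq_zero A p
  have hn := nice hp h0 hQ
  let φ := e.symm.toRingHom.comp (Ideal.Quotient.mk (Ideal.span {f}))
  let := φ.toAlgebra
  have hs : Function.Surjective (algebraMap Q (AdicCompletion (maximalIdeal R) R)) :=
    e.symm.surjective.comp Ideal.Quotient.mk_surjective
  have hk : ∀ a, algebraMap Q (AdicCompletion (maximalIdeal R) R) a = 0 ↔ ∃ b, f • b = a :=
    fun a => (map_eq_zero_iff e.symm e.symm.injective).trans (Ideal.Quotient.eq_zero_iff_mem.trans
      (Ideal.mem_span_singleton.trans (exists_congr fun _ => eq_comm)))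
  have := φ.domain_nontrivial
  have := hn.isLocalRing hp h0
  have := hn.fin
  have := IsNoetherianRing.of_finite A Q
  have : SMulCommClass R Q (AdicCompletion (maximalIdeal R) R) := ⟨fun a b c => by
    simp only [Algebra.smul_def, mul_left_comm]⟩
  obtain ⟨xs, a1, a2, a3⟩ := reg_seq A (n := 4) hA
  have hf' := Module.Flat.isSMulRegular_of_nonZeroDivisors (M := Q) hf
  have := hn.good hp xs a2 a3 hf' (Algebra.linearMap Q (AdicCompletion (maximalIdeal R) R)) hs hk
  rw [a1] at this
  exact descent AdicCompletion.maximalIdeal_eq_map hf' hs hk this.1 this.2 hR h2 h3 h4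

end Pool.Agent.Results.MP_a966df_ag.InseparableTowers
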